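import Pool.Agent.H334R2.CM.Defs
set_option autoImplicit false
open scoped Matrix MatrixGroups
universe u
namespace CM
namespace WEIL

variable {q : ℕ} [Fact q.Prime]

noncomputable instance : Fintype (GaloisField q 2) := Fintype.ofFinite _
noncomputable instance : DecidableEq (GaloisField q 2) := Classical.decEq _
noncomputable instance instFT1 : Fintype (T1 q) := Fintype.ofFinite _

/-- trace -/
noncomputable def tr (x : GaloisField q 2) : ZMod q :=
  Algebra.trace (ZMod q) (GaloisField q 2) x

/-- norm -/
noncomputable def nm (x : GaloisField q 2) : ZMod q :=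
  Algebra.norm (ZMod q) x

/-- embedding -/
noncomputable def em (a : ZMod q) : GaloisField q 2 := algebraMap (ZMod q) (GaloisField q 2) a

/-- conjugation -/
noncomputable def bar (x : GaloisField q 2) : GaloisField q 2 := x ^ q

lemma cardL : Nat.card (GaloisField q 2) = q ^ 2 := GaloisField.card q 2 (by norm_num)

lemma em_inj {a b : ZMod q} (h : em a = em b) : a = b :=
  (algebraMap (ZMod q) (GaloisField q 2)).injective h

lemma em_mul (a b : ZMod q) : (em (a * b) : GaloisField q 2) = em a * em b := map_mul _ _ _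
lemma em_add (a b : ZMod q) : (em (a + b) : GaloisField q 2) = em a + em b := map_add _ _ _
lemma em_neg (a : ZMod q) : (em (-a) : GaloisField q 2) = -em a := map_neg _ _
lemma em_one : (em (1 : ZMod q) : GaloisField q 2) = 1 := map_one _
lemma em_zero : (em (0 : ZMod q) : GaloisField q 2) = 0 := map_zero _
lemma em_pow (a : ZMod q) (n : ℕ) : (em (a ^ n) : GaloisField q 2) = em a ^ n := map_pow _ _ _

lemma em_ne {a : ZMod q} (h : a ≠ 0) : (em a : GaloisField q 2) ≠ 0 := by
  intro h'
  exact h (em_inj (h'.trans em_zero.symm))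

lemma bar_mul (x y : GaloisField q 2) : bar (x * y) = bar x * bar y := mul_pow _ _ _
lemma bar_add (x y : GaloisField q 2) : bar (x + y) = bar x + bar y := add_pow_char _ _ _
lemma bar_bar (x : GaloisField q 2) : bar (bar x) = x := by
  unfold bar
  rw [← pow_mul, ← pow_two, ← cardL, Nat.card_eq_fintype_card]
  exact FiniteField.pow_card x
lemma bar_em (a : ZMod q) : bar (em a) = em a := by
  unfold bar
  rw [← em_pow, ZMod.pow_card]
lemma bar_inv (x : GaloisField q 2) : bar (x⁻¹) = (bar x)⁻¹ := inv_pow _ _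
lemma bar_zero : bar (0 : GaloisField q 2) = 0 := zero_pow (Fact.out (p := q.Prime)).ne_zero
lemma bar_neg (x : GaloisField q 2) : bar (-x) = -bar x := by
  have := bar_add x (-x)
  rw [add_neg_cancel, bar_zero] at this
  exact (neg_eq_of_add_eq_zero_right this.symm).symm

lemma finrankL : Module.finrank (ZMod q) (GaloisField q 2) = 2 :=
  GaloisField.finrank q (by norm_num)

lemma em_tr (x : GaloisField q 2) : em (tr x) = x + bar x := by
  unfold em tr bar
  rw [FiniteField.algebraMap_trace_eq_sum_pow, finrankL, Finset.sum_range_succ,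
    Finset.sum_range_one]
  simp [Nat.card_eq_fintype_card, ZMod.card]

lemma em_nm (x : GaloisField q 2) : em (nm x) = x * bar x := by
  unfold em nm bar
  rw [FiniteField.algebraMap_norm_eq_prod_pow, finrankL, Finset.prod_range_succ,
    Finset.prod_range_one]
  simp [Nat.card_eq_fintype_card, ZMod.card]

lemma tr_add (x y : GaloisField q 2) : tr (x + y) = tr x + tr y := map_add _ _ _
lemma tr_zero : tr (0 : GaloisField q 2) = 0 := map_zero _
lemma tr_em_mul (a : ZMod q) (x : GaloisField q 2) : tr (em a * x) = a * tr x := by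
  apply em_inj
  rw [em_mul, em_tr, em_tr, bar_mul, bar_em]; ring
lemma tr_bar (x : GaloisField q 2) : tr (bar x) = tr x := by
  apply em_inj
  rw [em_tr, em_tr, bar_bar]; ring
lemma nm_mul (x y : GaloisField q 2) : nm (x * y) = nm x * nm y := map_mul _ _ _
lemma nm_one : nm (1 : GaloisField q 2) = 1 := map_one _
lemma nm_em (a : ZMod q) : nm (em a) = a ^ 2 := by
  apply em_inj
  rw [em_nm, bar_em, em_pow]; ring
lemma nm_neg (x : GaloisField q 2) : nm (-x) = nm x := by
  apply em_inj
  rw [em_nm, em_nm, bar_neg]; ring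
lemma nm_zero : nm (0 : GaloisField q 2) = 0 := by
  rw [← em_zero, nm_em]; ring
lemma bar_eq_zero {x : GaloisField q 2} (h : bar x = 0) : x = 0 := by
  unfold bar at h
  exact pow_eq_zero_iff (Fact.out (p := q.Prime)).ne_zero |>.1 h
lemma nm_eq_zero {x : GaloisField q 2} (h : nm x = 0) : x = 0 := by
  have h1 := em_nm x
  rw [h, em_zero] at h1
  rcases mul_eq_zero.1 h1.symm with h2 | h2
  · exact h2
  · exact bar_eq_zero h2
lemma nm_ne {x : GaloisField q 2} (h : x ≠ 0) : nm x ≠ 0 := fun h' => h (nm_eq_zero h')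
lemma nm_add (x y : GaloisField q 2) : nm (x + y) = nm x + tr (x * bar y) + nm y := by
  apply em_inj
  rw [em_nm, em_add, em_add, em_nm, em_nm, em_tr, bar_mul, bar_bar, bar_add]; ring
lemma nm_surj (c : ZMod q) : ∃ x : GaloisField q 2, nm x = c :=
  FiniteField.norm_surjective (ZMod q) (GaloisField q 2) c

/-- elements fixed by conjugation are in the prime field -/
lemma of_bar_eq (hq : q ≠ 2) {x : GaloisField q 2} (h : bar x = x) : ∃ a : ZMod q, x = em a := by
  have h1 := em_tr x
  rw [h] at h1
  have h2 : (2 : ZMod q) ≠ 0 := by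
    intro h
    have : (q : ℕ) ∣ 2 := (ZMod.natCast_eq_zero_iff 2 q).1 (by exact_mod_cast h)
    exact hq ((Nat.prime_dvd_prime_iff_eq (Fact.out (p := q.Prime)) Nat.prime_two).1 this)
  refine ⟨2⁻¹ * tr x, ?_⟩
  rw [em_mul, h1]
  have h3 : (em (2⁻¹ : ZMod q) : GaloisField q 2) * 2 = 1 := by
    have : (2 : GaloisField q 2) = em 2 := by
      have : (2 : ZMod q) = 1 + 1 := by norm_num
      rw [this, em_add, em_one]; norm_num
    rw [this, ← em_mul, inv_mul_cancel₀ h2, em_one]
  linear_combination (-x) * h3

/-- nondegeneracy of the trace form -/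
lemma exists_tr_ne {c : GaloisField q 2} (hc : c ≠ 0) : ∃ y, tr (bar y * c) ≠ 0 := by
  obtain ⟨b, hb⟩ : ∃ b : GaloisField q 2, Algebra.trace (ZMod q) (GaloisField q 2) (c * b) ≠ 0 := by
    by_contra! hcon
    exact hc ((traceForm_nondegenerate (ZMod q) (GaloisField q 2)).1 c (fun y => by
      rw [Algebra.traceForm_apply]; exact hcon y))
  refine ⟨bar b, ?_⟩
  rw [bar_bar, mul_comm]
  exact hb

/-- the norm one group -/
lemma t1_mul_bar (t : T1 q) : ((t : (GaloisField q 2)ˣ) : GaloisField q 2) *
    bar ((t : (GaloisField q 2)ˣ) : GaloisField q 2) = 1 := by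
  have h := t.2
  have h' : (t : (GaloisField q 2)ˣ) ^ (q + 1) = 1 := h
  have := congrArg (fun u : (GaloisField q 2)ˣ => (u : GaloisField q 2)) h'
  simp only [Units.val_pow_eq_pow_val, Units.val_one] at this
  unfold bar
  rw [← this]; ring

lemma t1_nm (t : T1 q) : nm ((t : (GaloisField q 2)ˣ) : GaloisField q 2) = 1 := by
  apply em_inj
  rw [em_nm, t1_mul_bar, em_one]

/-- element of `T1` from an element of norm 1 -/
noncomputable def mk1 (x : GaloisField q 2) (h : nm x = 1) : T1 q :=
  ⟨Units.mk0 x (by rintro rfl; rw [nm_zero] at h; exact zero_ne_one h), by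
    change _ ^ (q + 1) = 1
    ext
    simp only [Units.val_pow_eq_pow_val, Units.val_mk0, Units.val_one]
    have := em_nm x
    rw [h, em_one] at this
    unfold bar at this
    rw [pow_succ']; exact this.symm⟩

lemma mk1_val (x : GaloisField q 2) (h : nm x = 1) :
    (((mk1 x h : T1 q) : (GaloisField q 2)ˣ) : GaloisField q 2) = x := rfl

lemma t1_ext {s t : T1 q} (h : ((s : (GaloisField q 2)ˣ) : GaloisField q 2) =
    ((t : (GaloisField q 2)ˣ) : GaloisField q 2)) : s = t := by
  apply Subtype.ext
  exact Units.ext h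

end WEIL
end CM
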