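import Pool.Agent.H791R2.CM.W1
set_option autoImplicit false
open scoped Matrix MatrixGroups
universe u
namespace CM
namespace WEIL

variable {q : ℕ} [Fact q.Prime]

/-- the underlying field element -/
noncomputable def tv (t : T1 q) : GaloisField q 2 := ((t : (GaloisField q 2)ˣ) : GaloisField q 2)

lemma tv_ne (t : T1 q) : tv t ≠ 0 := Units.ne_zero _
lemma tv_bar (t : T1 q) : tv t * bar (tv t) = 1 := t1_mul_bar t
lemma tv_nm (t : T1 q) : nm (tv t) = 1 := t1_nm t
lemma tv_mul (s t : T1 q) : tv (s * t) = tv s * tv t := rfl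
lemma tv_one : tv (1 : T1 q) = 1 := rfl
lemma tv_mk1 (x : GaloisField q 2) (h : nm x = 1) : tv (mk1 x h) = x := rfl
lemma tv_inj {s t : T1 q} (h : tv s = tv t) : s = t := t1_ext h

variable {k : Type u} [Field k]

/-- the space of functions with `f (t x) = θ(t) f(x)` -/
noncomputable def Mt (θ : T1 q →* kˣ) : Submodule k (GaloisField q 2 → k) where
  carrier := {f | ∀ (t : T1 q) (x : GaloisField q 2), f (tv t * x) = (θ t : k) * f x}
  add_mem' := by
    intro f g hf hg t x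
    simp only [Pi.add_apply]
    rw [hf t x, hg t x]; ring
  zero_mem' := by
    intro t x
    simp
  smul_mem' := by
    intro c f hf t x
    simp only [Pi.smul_apply, smul_eq_mul]
    rw [hf t x]; ring

variable {θ : T1 q →* kˣ}

lemma Mt_apply (f : Mt θ) (t : T1 q) (x : GaloisField q 2) :
    f.1 (tv t * x) = (θ t : k) * f.1 x := f.2 t x

lemma Mt_zero (hθ : θ ≠ 1) (f : Mt θ) : f.1 0 = 0 := by
  obtain ⟨t, ht⟩ : ∃ t, θ t ≠ 1 := by
    by_contra! h
    exact hθ (MonoidHom.ext h)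
  have h := Mt_apply f t 0
  rw [mul_zero] at h
  have h1 : ((θ t : k) - 1) * f.1 0 = 0 := by linear_combination -h
  rcases mul_eq_zero.1 h1 with h2 | h2
  · exact absurd (Units.ext (by simpa using sub_eq_zero.1 h2)) ht
  · exact h2

lemma sq_one [CharP k 2] {u : k} (h : u ^ 2 = 1) : u = 1 := by
  have h2 : (2 : k) = 0 := CharP.cast_eq_zero k 2
  have h1 : (u - 1) ^ 2 = 0 := by linear_combination h + (1 - u) * h2
  exact sub_eq_zero.1 (pow_eq_zero_iff (two_ne_zero) |>.1 h1)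

lemma q_cast [CharP k 2] (hq : q % 4 = 3) : (q : k) = 1 := by
  have h2 : (2 : k) = 0 := CharP.cast_eq_zero k 2
  have : q = 2 * (q / 2) + 1 := by omega
  rw [this]
  push_cast
  rw [h2]; ring

lemma nm_neg_one : nm (-1 : GaloisField q 2) = 1 := by rw [nm_neg, nm_one]

lemma Mt_neg [CharP k 2] (f : Mt θ) (x : GaloisField q 2) : f.1 (-x) = f.1 x := by
  have h := Mt_apply f (mk1 (-1) nm_neg_one) x
  rw [tv_mk1, neg_one_mul] at h
  rw [h]
  have h1 : (mk1 (-1) nm_neg_one : T1 q) ^ 2 = 1 := by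
    apply tv_inj
    rw [pow_two, tv_mul, tv_mk1, tv_one]; ring
  have h2 : ((θ (mk1 (-1) nm_neg_one) : kˣ) : k) ^ 2 = 1 := by
    rw [← Units.val_pow_eq_pow_val, ← map_pow, h1, map_one, Units.val_one]
  rw [sq_one h2, one_mul]

variable (ψ : AddChar (ZMod q) k)

/-- the operator of `n b` -/
noncomputable def oN (b : ZMod q) : Mt θ →ₗ[k] Mt θ where
  toFun f := ⟨fun x => ψ (b * nm x) * f.1 x, fun t x => by
    change ψ (b * nm (tv t * x)) * f.1 (tv t * x) = (θ t : k) * (ψ (b * nm x) * f.1 x)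
    rw [nm_mul, tv_nm, one_mul, Mt_apply]; ring⟩
  map_add' f g := by
    ext x
    change ψ (b * nm x) * (f.1 x + g.1 x) = ψ (b * nm x) * f.1 x + ψ (b * nm x) * g.1 x
    ring
  map_smul' c f := by
    ext x
    change ψ (b * nm x) * (c * f.1 x) = c * (ψ (b * nm x) * f.1 x)
    ring

lemma oN_apply (b : ZMod q) (f : Mt θ) (x : GaloisField q 2) :
    (oN ψ b f).1 x = ψ (b * nm x) * f.1 x := rfl

/-- the operator of `d a` -/
noncomputable def oD (a : (ZMod q)ˣ) : Mt θ →ₗ[k] Mt θ where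
  toFun f := ⟨fun x => f.1 (em (a : ZMod q) * x), fun t x => by
    change f.1 (em (a : ZMod q) * (tv t * x)) = (θ t : k) * f.1 (em (a : ZMod q) * x)
    rw [← Mt_apply, mul_left_comm]⟩
  map_add' f g := rfl
  map_smul' c f := rfl

lemma oD_apply (a : (ZMod q)ˣ) (f : Mt θ) (x : GaloisField q 2) :
    (oD a f).1 x = f.1 (em (a : ZMod q) * x) := rfl

lemma sum_mul {c : GaloisField q 2} (hc : c ≠ 0) (F : GaloisField q 2 → k) :
    ∑ y, F (c * y) = ∑ y, F y :=
  Fintype.sum_equiv (Equiv.mulLeft₀ c hc) _ _ (fun _ => rfl)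

/-- the operator of `w` -/
noncomputable def oW : Mt θ →ₗ[k] Mt θ where
  toFun f := ⟨fun x => ∑ y, ψ (tr (x * bar y)) * f.1 y, fun t x => by
    change ∑ y, ψ (tr (tv t * x * bar y)) * f.1 y =
      (θ t : k) * ∑ y, ψ (tr (x * bar y)) * f.1 y
    rw [← sum_mul (tv_ne t), Finset.mul_sum]
    refine Finset.sum_congr rfl fun y _ => ?_
    rw [Mt_apply]
    have : tv t * x * bar (tv t * y) = x * bar y := by
      rw [bar_mul]
      linear_combination (x * bar y) * tv_bar t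
    rw [this]; ring⟩
  map_add' f g := by
    ext x
    change ∑ y, ψ (tr (x * bar y)) * (f.1 y + g.1 y) =
      ∑ y, ψ (tr (x * bar y)) * f.1 y + ∑ y, ψ (tr (x * bar y)) * g.1 y
    rw [← Finset.sum_add_distrib]
    exact Finset.sum_congr rfl fun y _ => by ring
  map_smul' c f := by
    ext x
    change ∑ y, ψ (tr (x * bar y)) * (c * f.1 y) =
      c * ∑ y, ψ (tr (x * bar y)) * f.1 y
    rw [Finset.mul_sum]
    exact Finset.sum_congr rfl fun y _ => by ring

lemma oW_apply (f : Mt θ) (x : GaloisField q 2) :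
    (oW ψ f).1 x = ∑ y, ψ (tr (x * bar y)) * f.1 y := rfl

/-! relations -/

lemma r0 : (oN ψ 0 : Module.End k (Mt θ)) = 1 := by
  ext f x
  change ψ (0 * nm x) * f.1 x = f.1 x
  simp

lemma rn (x y : ZMod q) : (oN ψ (x + y) : Module.End k (Mt θ)) = oN ψ x * oN ψ y := by
  ext f z
  change ψ ((x + y) * nm z) * f.1 z = ψ (x * nm z) * (ψ (y * nm z) * f.1 z)
  rw [add_mul, AddChar.map_add_eq_mul]; ring

lemma rd (a b : (ZMod q)ˣ) : (oD (a * b) : Module.End k (Mt θ)) = oD a * oD b := by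
  ext f z
  change f.1 (em ((a * b : (ZMod q)ˣ) : ZMod q) * z) = f.1 (em (b : ZMod q) * (em (a : ZMod q) * z))
  have : em ((a * b : (ZMod q)ˣ) : ZMod q) * z = em (b : ZMod q) * (em (a : ZMod q) * z) := by
    rw [Units.val_mul, em_mul]; ring
  rw [this]

lemma rd' [CharP k 2] : (oD (-1) : Module.End k (Mt θ)) = 1 := by
  ext f z
  change f.1 (em ((-1 : (ZMod q)ˣ) : ZMod q) * z) = f.1 z
  rw [Units.val_neg, Units.val_one, em_neg, em_one, neg_one_mul, Mt_neg]

lemma rdn (a : (ZMod q)ˣ) (x : ZMod q) : (oD a : Module.End k (Mt θ)) * oN ψ x =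
    oN ψ ((a : ZMod q) ^ 2 * x) * oD a := by
  ext f z
  change ψ (x * nm (em (a : ZMod q) * z)) * f.1 (em (a : ZMod q) * z) =
    ψ ((a : ZMod q) ^ 2 * x * nm z) * f.1 (em (a : ZMod q) * z)
  rw [nm_mul, nm_em]
  congr 2; ring

lemma em_unit_ne (a : (ZMod q)ˣ) : em (a : ZMod q) ≠ (0 : GaloisField q 2) := em_ne a.ne_zero

lemma em_inv_mul (a : (ZMod q)ˣ) :
    em ((a⁻¹ : (ZMod q)ˣ) : ZMod q) * em (a : ZMod q) = (1 : GaloisField q 2) := by
  rw [← em_mul, ← Units.val_mul, inv_mul_cancel, Units.val_one, em_one]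

lemma rwd (a : (ZMod q)ˣ) : (oW ψ : Module.End k (Mt θ)) * oD a = oD a⁻¹ * oW ψ := by
  ext f z
  change ∑ y, ψ (tr (z * bar y)) * f.1 (em (a : ZMod q) * y) =
    ∑ y, ψ (tr (em ((a⁻¹ : (ZMod q)ˣ) : ZMod q) * z * bar y)) * f.1 y
  rw [← sum_mul (em_unit_ne a) (fun y =>
    ψ (tr (em ((a⁻¹ : (ZMod q)ˣ) : ZMod q) * z * bar y)) * f.1 y)]
  refine Finset.sum_congr rfl fun y _ => ?_
  rw [bar_mul, bar_em]
  have : em ((a⁻¹ : (ZMod q)ˣ) : ZMod q) * z * (em (a : ZMod q) * bar y) = z * bar y := by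
    linear_combination (z * bar y) * em_inv_mul a
  rw [this]

/-- orthogonality -/
lemma sum_tr (hq : q % 4 = 3) [CharP k 2] (hψ : ψ.IsPrimitive) (c : GaloisField q 2) :
    ∑ y, ψ (tr (bar y * c)) = if c = 0 then 1 else 0 := by
  split_ifs with hc
  · subst hc
    simp only [mul_zero, tr_zero, AddChar.map_zero_eq_one, Finset.sum_const, Finset.card_univ,
      nsmul_eq_mul, mul_one]
    rw [← Nat.card_eq_fintype_card, cardL, Nat.cast_pow, q_cast hq, one_pow]
  · obtain ⟨y0, hy0⟩ := exists_tr_ne hc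
    have h1 := hψ hy0
    obtain ⟨v, hv⟩ : ∃ v, AddChar.mulShift ψ (tr (bar y0 * c)) v ≠ 1 := by
      by_contra! h
      exact h1 (by ext v; rw [h v]; rfl)
    rw [AddChar.mulShift_apply] at hv
    have h2 : ∑ y, ψ (tr (bar y * c)) = ψ (tr (bar y0 * c) * v) * ∑ y, ψ (tr (bar y * c)) := by
      rw [Finset.mul_sum]
      refine (Fintype.sum_equiv (Equiv.addLeft (em v * y0)) _ _ fun y => ?_).symm
      simp only [Equiv.coe_addLeft]
      rw [bar_add, bar_mul, bar_em, add_mul, tr_add, mul_assoc, tr_em_mul,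
        AddChar.map_add_eq_mul, mul_comm v]
    have h3 : (ψ (tr (bar y0 * c) * v) - 1) * ∑ y, ψ (tr (bar y * c)) = 0 := by
      linear_combination -h2
    rcases mul_eq_zero.1 h3 with h4 | h4
    · exact absurd (sub_eq_zero.1 h4) hv
    · exact h4

lemma rww (hq : q % 4 = 3) [CharP k 2] (hψ : ψ.IsPrimitive) :
    (oW ψ : Module.End k (Mt θ)) * oW ψ = 1 := by
  ext f x
  change ∑ y, ψ (tr (x * bar y)) * (∑ z, ψ (tr (y * bar z)) * f.1 z) = f.1 x
  simp_rw [Finset.mul_sum]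
  rw [Finset.sum_comm]
  have h1 : ∀ z, ∑ y, ψ (tr (x * bar y)) * (ψ (tr (y * bar z)) * f.1 z) =
      (if x + z = 0 then 1 else 0) * f.1 z := by
    intro z
    rw [← sum_tr ψ hq hψ, Finset.sum_mul]
    refine Finset.sum_congr rfl fun y _ => ?_
    rw [mul_add, tr_add, AddChar.map_add_eq_mul]
    have e1 : tr (y * bar z) = tr (bar y * z) := by
      rw [← tr_bar, bar_mul, bar_bar]
    rw [e1, mul_comm x]; ring
  rw [Finset.sum_congr rfl fun z _ => h1 z]
  rw [Finset.sum_eq_single (-x)]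
  · simp [Mt_neg]
  · intro z _ hz
    rw [if_neg, zero_mul]
    intro h
    exact hz (eq_neg_of_add_eq_zero_right h)
  · intro h; exact absurd (Finset.mem_univ _) h

lemma neg_ne_self (hq : q % 4 = 3) {y : GaloisField q 2} (hy : y ≠ 0) : -y ≠ y := by
  intro h
  have h2 : (2 : GaloisField q 2) * y = 0 := by linear_combination -h
  rcases mul_eq_zero.1 h2 with h3 | h3
  · have h4 : (2 : ZMod q) = 0 := by
      apply em_inj
      rw [em_zero]
      have : (2 : ZMod q) = 1 + 1 := by norm_num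
      rw [this, em_add, em_one]
      rw [← h3]; norm_num
    have : (q : ℕ) ∣ 2 := (ZMod.natCast_eq_zero_iff 2 q).1 (by exact_mod_cast h4)
    have := Nat.le_of_dvd (by norm_num) this
    have := (Fact.out (p := q.Prime)).two_le
    omega
  · exact hy h3

lemma sum_nm (hq : q % 4 = 3) [CharP k 2] (b : ZMod q) :
    ∑ y : GaloisField q 2, ψ (b * nm y) = 1 := by
  rw [← Finset.add_sum_erase _ _ (Finset.mem_univ (0 : GaloisField q 2))]
  rw [nm_zero, mul_zero, AddChar.map_zero_eq_one]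
  have : ∑ y ∈ Finset.univ.erase (0 : GaloisField q 2), ψ (b * nm y) = 0 := by
    refine Finset.sum_involution (fun y _ => -y) ?_ ?_ ?_ ?_
    · intro y _
      rw [nm_neg, CharTwo.add_self_eq_zero]
    · intro y hy _
      exact neg_ne_self hq (Finset.ne_of_mem_erase hy)
    · intro y hy
      rw [Finset.mem_erase] at hy ⊢
      exact ⟨neg_ne_zero.2 hy.1, Finset.mem_univ _⟩
    · intro y _
      exact neg_neg y
  rw [this, add_zero]

lemma rwnw (hq : q % 4 = 3) [CharP k 2] (b : (ZMod q)ˣ) :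
    (oW ψ : Module.End k (Mt θ)) * oN ψ (b : ZMod q) * oW ψ =
      oN ψ (-((b⁻¹ : (ZMod q)ˣ) : ZMod q)) * oW ψ * oD b *
        oN ψ (-((b⁻¹ : (ZMod q)ˣ) : ZMod q)) := by
  have hb : (b : ZMod q) * ((b⁻¹ : (ZMod q)ˣ) : ZMod q) = 1 := by
    rw [← Units.val_mul, mul_inv_cancel, Units.val_one]
  ext f x
  change ∑ y, ψ (tr (x * bar y)) * (ψ ((b : ZMod q) * nm y) *
      (∑ z, ψ (tr (y * bar z)) * f.1 z)) =
    ψ (-((b⁻¹ : (ZMod q)ˣ) : ZMod q) * nm x) * (∑ y, ψ (tr (x * bar y)) *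
      (ψ (-((b⁻¹ : (ZMod q)ˣ) : ZMod q) * nm (em (b : ZMod q) * y)) * f.1 (em (b : ZMod q) * y)))
  generalize hc : ((b⁻¹ : (ZMod q)ˣ) : ZMod q) = c at hb ⊢
  -- left side
  have hL : ∑ y, ψ (tr (x * bar y)) * (ψ ((b : ZMod q) * nm y) *
      (∑ z, ψ (tr (y * bar z)) * f.1 z)) = ∑ z, ψ (-(c * nm (x + z))) * f.1 z := by
    simp_rw [Finset.mul_sum]
    rw [Finset.sum_comm]
    refine Finset.sum_congr rfl fun z _ => ?_
    have h1 : ∀ y, ψ (tr (x * bar y)) * (ψ ((b : ZMod q) * nm y) * (ψ (tr (y * bar z)) * f.1 z)) =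
        ψ ((b : ZMod q) * nm (em c * (x + z) + y)) * (ψ (-(c * nm (x + z))) * f.1 z) := by
      intro y
      have e1 : tr (y * bar z) = tr (z * bar y) := by
        rw [← tr_bar, bar_mul, bar_bar, mul_comm]
      have e2 : (b : ZMod q) * nm (em c * (x + z) + y) =
          c * nm (x + z) + tr (x * bar y) + tr (z * bar y) + (b : ZMod q) * nm y := by
        rw [nm_add, nm_mul, nm_em, mul_assoc (em c), tr_em_mul, add_mul, tr_add]
        linear_combination (c * nm (x + z) + tr (x * bar y) + tr (z * bar y)) * hb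
      rw [e1, e2, AddChar.map_add_eq_mul, AddChar.map_add_eq_mul, AddChar.map_add_eq_mul]
      have e3 : ψ (c * nm (x + z)) * ψ (-(c * nm (x + z))) = 1 := by
        rw [← AddChar.map_add_eq_mul, add_neg_cancel, AddChar.map_zero_eq_one]
      linear_combination (-(ψ (tr (x * bar y)) * ψ (tr (z * bar y)) * ψ ((b : ZMod q) * nm y) *
        f.1 z)) * e3
    rw [Finset.sum_congr rfl fun y _ => h1 y, ← Finset.sum_mul,
      Fintype.sum_equiv (Equiv.addLeft (em c * (x + z)))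
        (fun y => ψ ((b : ZMod q) * nm (em c * (x + z) + y))) (fun y => ψ ((b : ZMod q) * nm y))
        (fun y => rfl), sum_nm ψ hq, one_mul]
  have hR : ψ (-c * nm x) * (∑ y, ψ (tr (x * bar y)) *
      (ψ (-c * nm (em (b : ZMod q) * y)) * f.1 (em (b : ZMod q) * y))) =
      ∑ z, ψ (-(c * nm (x - z))) * f.1 z := by
    rw [← sum_mul (em_unit_ne b) (fun z => ψ (-(c * nm (x - z))) * f.1 z), Finset.mul_sum]
    refine Finset.sum_congr rfl fun y _ => ?_
    have e2 : -(c * nm (x - em (b : ZMod q) * y)) =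
        -c * nm x + tr (x * bar y) + (-c * nm (em (b : ZMod q) * y)) := by
      rw [sub_eq_add_neg, nm_add, nm_neg, bar_neg, bar_mul, bar_em]
      have : x * -(em (b : ZMod q) * bar y) = em (-(b : ZMod q)) * (x * bar y) := by
        rw [em_neg]; ring
      rw [this, tr_em_mul]
      linear_combination (tr (x * bar y)) * hb
    rw [e2, AddChar.map_add_eq_mul, AddChar.map_add_eq_mul]; ring
  rw [hL, hR]
  refine Fintype.sum_equiv (Equiv.neg _) _ _ fun z => ?_
  simp only [Equiv.neg_apply, sub_neg_eq_add, Mt_neg]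

end WEIL
end CM
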