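import Pool.Agent.H791R2.CM.W2
set_option autoImplicit false
open scoped Matrix MatrixGroups
universe u
namespace CM
namespace WEIL

variable {q : ℕ} [Fact q.Prime] {k : Type u} [Field k] {θ : T1 q →* kˣ}

lemma nm_quot (t : T1 q) (x y : GaloisField q 2) : nm (tv t * x * y⁻¹) = nm (x * y⁻¹) := by
  rw [mul_assoc, nm_mul, tv_nm, one_mul]

/-- the function supported on `T1 y` -/
noncomputable def FF (θ : T1 q →* kˣ) (y : GaloisField q 2) : Mt θ :=
  ⟨fun x => open Classical in if h : nm (x * y⁻¹) = 1 then (θ (mk1 (x * y⁻¹) h) : k) else 0, by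
    intro t x
    by_cases h : nm (x * y⁻¹) = 1
    · have h' : nm (tv t * x * y⁻¹) = 1 := by rw [nm_quot]; exact h
      change (open Classical in if h : nm (tv t * x * y⁻¹) = 1 then
        (θ (mk1 (tv t * x * y⁻¹) h) : k) else 0) =
        (θ t : k) * (open Classical in if h : nm (x * y⁻¹) = 1 then
          (θ (mk1 (x * y⁻¹) h) : k) else 0)
      rw [dif_pos h', dif_pos h]
      have : mk1 (tv t * x * y⁻¹) h' = t * mk1 (x * y⁻¹) h := by
        apply tv_inj
        rw [tv_mul, tv_mk1, tv_mk1, mul_assoc]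
      rw [this, map_mul, Units.val_mul]
    · have h' : ¬ nm (tv t * x * y⁻¹) = 1 := by rw [nm_quot]; exact h
      change (open Classical in if h : nm (tv t * x * y⁻¹) = 1 then
        (θ (mk1 (tv t * x * y⁻¹) h) : k) else 0) =
        (θ t : k) * (open Classical in if h : nm (x * y⁻¹) = 1 then
          (θ (mk1 (x * y⁻¹) h) : k) else 0)
      rw [dif_neg h', dif_neg h, mul_zero]⟩

lemma FF_of {y x : GaloisField q 2} (h : nm (x * y⁻¹) = 1) :
    (FF θ y).1 x = (θ (mk1 (x * y⁻¹) h) : k) := by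
  change (open Classical in if h : nm (x * y⁻¹) = 1 then (θ (mk1 (x * y⁻¹) h) : k) else 0) = _
  rw [dif_pos h]

lemma FF_not {y x : GaloisField q 2} (h : ¬ nm (x * y⁻¹) = 1) : (FF θ y).1 x = 0 := by
  change (open Classical in if h : nm (x * y⁻¹) = 1 then (θ (mk1 (x * y⁻¹) h) : k) else 0) = _
  rw [dif_neg h]

lemma nm_inv {y : GaloisField q 2} (hy : y ≠ 0) : nm y⁻¹ = (nm y)⁻¹ := by
  have h1 : nm y * nm y⁻¹ = 1 := by rw [← nm_mul, mul_inv_cancel₀ hy, nm_one]
  exact eq_inv_of_mul_eq_one_right h1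

lemma nm_div_iff {x y : GaloisField q 2} (hy : y ≠ 0) : nm (x * y⁻¹) = 1 ↔ nm x = nm y := by
  rw [nm_mul, nm_inv hy, mul_inv_eq_one₀ (nm_ne hy)]

lemma FF_t {y : GaloisField q 2} (hy : y ≠ 0) (t : T1 q) : (FF θ y).1 (tv t * y) = (θ t : k) := by
  have h : nm (tv t * y * y⁻¹) = 1 := by
    rw [mul_assoc, mul_inv_cancel₀ hy, mul_one, tv_nm]
  rw [FF_of h]
  have : mk1 (tv t * y * y⁻¹) h = t := by
    apply tv_inj
    rw [tv_mk1, mul_assoc, mul_inv_cancel₀ hy, mul_one]
  rw [this]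

lemma FF_self {y : GaloisField q 2} (hy : y ≠ 0) : (FF θ y).1 y = 1 := by
  have := FF_t (θ := θ) hy 1
  rw [tv_one, one_mul, map_one, Units.val_one] at this
  exact this

lemma FF_ne {y : GaloisField q 2} (hy : y ≠ 0) : FF θ y ≠ 0 := by
  intro h
  have := FF_self (θ := θ) hy
  rw [h] at this
  exact zero_ne_one this

/-- the projection -/
noncomputable def PP (c : ZMod q) (f : Mt θ) : Mt θ :=
  ⟨fun x => if nm x = c then f.1 x else 0, by
    intro t x
    change (if nm (tv t * x) = c then f.1 (tv t * x) else 0) =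
      (θ t : k) * (if nm x = c then f.1 x else 0)
    rw [nm_mul, tv_nm, one_mul, Mt_apply]
    split_ifs <;> simp⟩

lemma PP_apply (c : ZMod q) (f : Mt θ) (x : GaloisField q 2) :
    (PP c f).1 x = if nm x = c then f.1 x else 0 := rfl

lemma PP_eq {y : GaloisField q 2} (hy : y ≠ 0) (f : Mt θ) : PP (nm y) f = f.1 y • FF θ y := by
  ext x
  change (if nm x = nm y then f.1 x else 0) = f.1 y * (FF θ y).1 x
  split_ifs with h
  · have h1 := (nm_div_iff hy).2 h
    have h2 : x = tv (mk1 (x * y⁻¹) h1) * y := by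
      rw [tv_mk1, mul_assoc, inv_mul_cancel₀ hy, mul_one]
    rw [FF_of h1]
    conv_lhs => rw [h2]
    rw [Mt_apply]; ring
  · rw [FF_not (fun h' => h ((nm_div_iff hy).1 h')), mul_zero]

lemma PP_FF {y : GaloisField q 2} (hy : y ≠ 0) : PP (nm y) (FF θ y) = FF θ y := by
  rw [PP_eq hy, FF_self hy, one_smul]

lemma FF_smul {y y' : GaloisField q 2} (hy : y ≠ 0) (hy' : y' ≠ 0) (h : nm y = nm y') :
    FF θ y = (FF θ y).1 y' • FF θ y' := by
  conv_lhs => rw [← PP_FF hy, h]
  rw [PP_eq hy']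

lemma oD_FF (a : (ZMod q)ˣ) {y : GaloisField q 2} (hy : y ≠ 0) :
    oD a (FF θ (em (a : ZMod q) * y)) = FF θ y := by
  have ha := em_unit_ne a
  have h1 := FF_smul (θ := θ) (k := k) hy hy rfl
  have h2 : oD a (FF θ (em (a : ZMod q) * y)) =
      PP (nm y) (oD a (FF θ (em (a : ZMod q) * y))) := by
    ext x
    rw [PP_apply]
    split_ifs with h
    · rfl
    · rw [oD_apply, FF_not]
      intro h'
      apply h
      have h3 := (nm_div_iff (mul_ne_zero ha hy)).1 h'
      rw [nm_mul, nm_mul] at h3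
      exact mul_left_cancel₀ (nm_ne ha) h3
  rw [h2, PP_eq hy, oD_apply, FF_self (mul_ne_zero ha hy), one_smul]

lemma sum_FF {y : GaloisField q 2} (hy : y ≠ 0) (H : GaloisField q 2 → k) :
    ∑ x, H x * (FF θ y).1 x = ∑ t : T1 q, H (tv t * y) * (θ t : k) := by
  symm
  refine Fintype.sum_of_injective (fun t : T1 q => tv t * y) ?_ _ _ ?_ ?_
  · intro s t h
    exact tv_inj (mul_right_cancel₀ hy h)
  · intro x hx
    rw [FF_not, mul_zero]
    intro h
    apply hx
    refine ⟨mk1 (x * y⁻¹) h, ?_⟩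
    change tv (mk1 (x * y⁻¹) h) * y = x
    rw [tv_mk1, mul_assoc, inv_mul_cancel₀ hy, mul_one]
  · intro t
    change H (tv t * y) * (θ t : k) = H (tv t * y) * (FF θ y).1 (tv t * y)
    rw [FF_t hy]

variable (ψ : AddChar (ZMod q) k)

lemma oW_FF (a : (ZMod q)ˣ) {y : GaloisField q 2} (hy : y ≠ 0) (y0 : GaloisField q 2) :
    (oW ψ (oD a (FF θ y))).1 y0 = ∑ t : T1 q,
      ψ (((a⁻¹ : (ZMod q)ˣ) : ZMod q) * tr (y0 * bar (tv t * y))) * (θ t : k) := by
  rw [oW_apply]
  rw [← sum_FF hy (fun x => ψ (((a⁻¹ : (ZMod q)ˣ) : ZMod q) * tr (y0 * bar x))),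
    ← sum_mul (em_unit_ne a)
      (fun x => ψ (((a⁻¹ : (ZMod q)ˣ) : ZMod q) * tr (y0 * bar x)) * (FF θ y).1 x)]
  refine Finset.sum_congr rfl fun x _ => ?_
  rw [oD_apply, ← tr_em_mul, bar_mul, bar_em]
  have : em ((a⁻¹ : (ZMod q)ˣ) : ZMod q) * (y0 * (em (a : ZMod q) * bar x)) = y0 * bar x := by
    linear_combination (y0 * bar x) * em_inv_mul a
  rw [this]

lemma sum_theta (hθ : θ ≠ 1) : ∑ t : T1 q, (θ t : k) = 0 := by
  obtain ⟨t, ht⟩ : ∃ t, θ t ≠ 1 := by
    by_contra! h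
    exact hθ (MonoidHom.ext h)
  have h2 : ∑ s : T1 q, (θ s : k) = (θ t : k) * ∑ s : T1 q, (θ s : k) := by
    rw [Finset.mul_sum]
    refine (Fintype.sum_equiv (Equiv.mulLeft t) _ _ fun y => ?_).symm
    simp only [Equiv.coe_mulLeft, map_mul, Units.val_mul]
  have h3 : ((θ t : k) - 1) * ∑ s : T1 q, (θ s : k) = 0 := by
    linear_combination -h2
  rcases mul_eq_zero.1 h3 with h4 | h4
  · exact absurd (Units.ext (by simpa using sub_eq_zero.1 h4)) ht
  · exact h4

lemma sum_psi (hq : q % 4 = 3) [CharP k 2] (hψ : ψ.IsPrimitive) (b : ZMod q) :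
    ∑ x, ψ (x * b) = if b = 0 then 1 else 0 := by
  rw [AddChar.sum_mulShift b hψ]
  split_ifs
  · rw [ZMod.card, q_cast hq]
  · simp

/-- the cross terms -/
lemma cross (hq : q % 4 = 3) [CharP k 2] (hψ : ψ.IsPrimitive) (hθ : θ ≠ 1)
    {y0 y1 : GaloisField q 2} (hy0 : y0 ≠ 0) (hy1 : y1 ≠ 0) (hns : ¬ IsSquare (nm y0 * nm y1)) :
    ∃ a : (ZMod q)ˣ, (oW ψ (oD a (FF θ y1))).1 y0 ≠ 0 := by
  by_contra! hcon
  set g : T1 q → ZMod q := fun t => tr (y0 * bar (tv t * y1)) with hg
  have h1 : ∀ v : ZMod q, ∑ t : T1 q, ψ (v * g t) * (θ t : k) = 0 := by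
    intro v
    by_cases hv : v = 0
    · subst hv
      simp only [zero_mul, AddChar.map_zero_eq_one, one_mul]
      exact sum_theta hθ
    · have := hcon (Units.mk0 v hv)⁻¹
      rw [oW_FF ψ _ hy1, inv_inv, Units.val_mk0] at this
      exact this
  have h2 : ∀ u : ZMod q, ∑ t : T1 q, (if g t = u then (θ t : k) else 0) = 0 := by
    intro u
    have e1 : ∑ v : ZMod q, ψ (-(v * u)) * (∑ t : T1 q, ψ (v * g t) * (θ t : k)) = 0 := by
      refine Finset.sum_eq_zero fun v _ => ?_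
      rw [h1, mul_zero]
    simp_rw [Finset.mul_sum] at e1
    rw [Finset.sum_comm] at e1
    refine (Finset.sum_congr rfl fun t _ => ?_).trans e1
    have e2 : ∀ v, ψ (-(v * u)) * (ψ (v * g t) * (θ t : k)) = ψ (v * (g t - u)) * (θ t : k) := by
      intro v
      rw [← mul_assoc, ← AddChar.map_add_eq_mul]
      congr 2; ring
    rw [Finset.sum_congr rfl fun v _ => e2 v, ← Finset.sum_mul, sum_psi ψ hq hψ]
    simp only [sub_eq_zero]
    split_ifs <;> simp
  set z : GaloisField q 2 := y0 * bar y1 with hz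
  have hby1 : bar y1 ≠ 0 := fun h => hy1 (bar_eq_zero h)
  have hz0 : z ≠ 0 := mul_ne_zero hy0 hby1
  have hbz0 : bar z ≠ 0 := fun h => hz0 (bar_eq_zero h)
  have hnbar : ∀ x : GaloisField q 2, nm (bar x) = nm x := by
    intro x
    apply em_inj
    rw [em_nm, em_nm, bar_bar, mul_comm]
  have hn1 : nm (z * (bar z)⁻¹) = 1 := (nm_div_iff hbz0).2 (hnbar z).symm
  set t' : T1 q := mk1 (z * (bar z)⁻¹) hn1 with ht'
  have ht'v : tv t' * bar z = z := by
    rw [ht', tv_mk1, mul_assoc, inv_mul_cancel₀ hbz0, mul_one]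
  have hgt : ∀ t, em (g t) = z * bar (tv t) + bar z * tv t := by
    intro t
    rw [hg]
    simp only []
    rw [em_tr, bar_mul, bar_mul, bar_mul, bar_bar, bar_bar, hz, bar_mul, bar_bar]
    ring
  have hinv : ∀ t : T1 q, tv t⁻¹ = bar (tv t) := by
    intro t
    have h3 : tv t * tv t⁻¹ = 1 := by rw [← tv_mul, mul_inv_cancel, tv_one]
    exact mul_left_cancel₀ (tv_ne t) (h3.trans (tv_bar t).symm)
  have hiff : ∀ s t : T1 q, g t = g s ↔ t = s ∨ t = t' * s⁻¹ := by
    intro s t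
    have hs := tv_bar s
    have ht := tv_bar t
    constructor
    · intro h
      have h3 : em (g t) = (em (g s) : GaloisField q 2) := by rw [h]
      rw [hgt, hgt] at h3
      have h4 : (tv t - tv s) * (bar z * (tv t * tv s) - z) = 0 := by
        linear_combination (tv t * tv s) * h3 - (z * tv s) * ht + (z * tv t) * hs
      rcases mul_eq_zero.1 h4 with h5 | h5
      · left; exact tv_inj (sub_eq_zero.1 h5)
      · right
        apply tv_inj
        rw [tv_mul, hinv]
        apply mul_left_cancel₀ hbz0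
        linear_combination bar (tv s) * h5 - (bar z * tv t) * hs - bar (tv s) * ht'v
    · rintro (h | h)
      · rw [h]
      · apply em_inj
        rw [hgt, hgt, h, tv_mul, hinv, bar_mul, bar_bar]
        have h6 : bar (tv t') * z = bar z := by
          have := tv_bar t'
          linear_combination (-bar (tv t')) * ht'v + bar z * this
        linear_combination bar (tv s) * ht'v + tv s * h6
  have hne : ∀ s : T1 q, s ≠ t' * s⁻¹ := by
    intro s hs
    have h3 : tv s = tv t' * bar (tv s) := by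
      conv_lhs => rw [hs]
      rw [tv_mul, hinv]
    have h4 : bar (z * bar (tv s)) = z * bar (tv s) := by
      rw [bar_mul, bar_bar]
      linear_combination bar z * h3 + bar (tv s) * ht'v
    obtain ⟨a, ha⟩ := of_bar_eq (by omega) h4
    apply hns
    refine ⟨a, ?_⟩
    have h5 : nm (z * bar (tv s)) = nm y0 * nm y1 := by
      rw [nm_mul, hnbar, tv_nm, mul_one, hz, nm_mul, hnbar]
    rw [← h5, ha, nm_em, pow_two]
  have h5 : ∀ s : T1 q, (θ s : k) + (θ (t' * s⁻¹) : k) = 0 := by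
    intro s
    have h3 := h2 (g s)
    rw [← Finset.sum_filter] at h3
    have h4 : (Finset.univ.filter fun t => g t = g s) = {s, t' * s⁻¹} := by
      ext t
      rw [Finset.mem_filter, Finset.mem_insert, Finset.mem_singleton, hiff]
      simp
    rw [h4, Finset.sum_pair (hne s)] at h3
    exact h3
  have h2' : (2 : k) = 0 := CharP.cast_eq_zero k 2
  have h6 : (θ t' : k) = 1 := by
    have := h5 1
    rw [map_one, Units.val_one, inv_one, mul_one] at this
    linear_combination this - h2'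
  apply hθ
  ext s
  have h7 := h5 s
  rw [map_mul, Units.val_mul, h6, one_mul, map_inv] at h7
  have h8 : (θ s : k) * (((θ s)⁻¹ : kˣ) : k) = 1 := by
    rw [← Units.val_mul, mul_inv_cancel, Units.val_one]
  have h9 : (θ s : k) ^ 2 = 1 := by
    linear_combination (θ s : k) * h7 - h8 - h2'
  exact sq_one h9

/-- simplicity -/
lemma core (hq : q % 4 = 3) [CharP k 2] (hψ : ψ.IsPrimitive) (hθ : θ ≠ 1)
    (X : Submodule k (Mt θ)) (hP : ∀ c f, f ∈ X → PP c f ∈ X)
    (hD : ∀ a f, f ∈ X → oD a f ∈ X) (hW : ∀ f, f ∈ X → oW ψ f ∈ X) (f : Mt θ) (hf : f ∈ X)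
    (hf0 : f ≠ 0) : ∀ g : Mt θ, g ∈ X := by
  obtain ⟨y, hy⟩ : ∃ y, f.1 y ≠ 0 := by
    by_contra! h
    exact hf0 (Subtype.ext (funext h))
  have hy0 : y ≠ 0 := by
    rintro rfl
    exact hy (Mt_zero hθ f)
  have key : ∀ (g : Mt θ) (x : GaloisField q 2), x ≠ 0 → g ∈ X → g.1 x ≠ 0 → FF θ x ∈ X := by
    intro g x hx hg hgx
    have h1 := hP (nm x) g hg
    rw [PP_eq hx] at h1
    have h2 := X.smul_mem (g.1 x)⁻¹ h1
    rwa [smul_smul, inv_mul_cancel₀ hgx, one_smul] at h2
  have hFy : FF θ y ∈ X := key f y hy0 hf hy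
  have hall : ∀ x : GaloisField q 2, x ≠ 0 → FF θ x ∈ X := by
    intro x hx
    by_cases hs : IsSquare (nm x * nm y)
    · obtain ⟨r, hr⟩ := hs
      have hr0 : r ≠ 0 := by
        rintro rfl
        rw [mul_zero] at hr
        exact (mul_ne_zero (nm_ne hx) (nm_ne hy0)) hr
      -- `nm x = nm (em a * y)`
      set a : (ZMod q)ˣ := Units.mk0 (r * (nm y)⁻¹) (mul_ne_zero hr0 (inv_ne_zero (nm_ne hy0)))
        with ha
      have hax : nm (em (a : ZMod q) * y) = nm x := by
        rw [nm_mul, nm_em, ha, Units.val_mk0]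
        have := nm_ne hy0
        field_simp
        linear_combination -hr
      have h1 : FF θ (em (a : ZMod q) * y) ∈ X := by
        have h2 := hD a⁻¹ (FF θ y) hFy
        have h3 : y = em ((a⁻¹ : (ZMod q)ˣ) : ZMod q) * (em (a : ZMod q) * y) := by
          rw [← mul_assoc, em_inv_mul, one_mul]
        rw [h3] at h2
        rwa [oD_FF a⁻¹ (mul_ne_zero (em_unit_ne a) hy0)] at h2
      rw [FF_smul hx (mul_ne_zero (em_unit_ne a) hy0) hax.symm]
      exact X.smul_mem _ h1
    · obtain ⟨a, ha⟩ := cross ψ hq hψ hθ hx hy0 hs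
      exact key _ x hx (hW _ (hD a _ hFy)) ha
  intro g
  have hsum : g = ∑ c : ZMod q, PP c g := by
    ext x
    have : (((∑ c : ZMod q, PP c g : Mt θ)) : GaloisField q 2 → k) x =
        ∑ c : ZMod q, (PP c g).1 x := by
      rw [Submodule.coe_sum, Finset.sum_apply]
    rw [this]
    simp only [PP_apply]
    rw [Finset.sum_ite_eq]
    simp
  rw [hsum]
  refine X.sum_mem fun c _ => ?_
  obtain ⟨x, hx⟩ := nm_surj c
  by_cases hx0 : x = 0
  · subst hx0
    rw [nm_zero] at hx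
    subst hx
    have : PP 0 g = 0 := by
      ext x
      rw [PP_apply]
      split_ifs with h
      · rw [nm_eq_zero h, Mt_zero hθ]; rfl
      · rfl
    rw [this]
    exact X.zero_mem
  · rw [← hx, PP_eq hx0]
    exact X.smul_mem _ (hall x hx0)

end WEIL
end CM
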