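import Pool.Agent.H791R2.CM.W3
import Pool.Agent.H334R2.CM.S.LIFT
set_option autoImplicit false
open scoped Matrix MatrixGroups
universe u
namespace CM
namespace WEIL

variable {q : ℕ} [Fact q.Prime] {G : Type} [Group G] {k : Type u} [Field k] {θ : T1 q →* kˣ}

/-- the algebra map of the representation -/
noncomputable def Phi (φ : G →* Module.End k (Mt θ)) :
    MonoidAlgebra k G →ₐ[k] Module.End k (Mt θ) :=
  MonoidAlgebra.lift k (Module.End k (Mt θ)) G φ

lemma Phi_single (φ : G →* Module.End k (Mt θ)) (g : G) (c : k) :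
    Phi φ (MonoidAlgebra.single g c) = c • φ g := by
  unfold Phi
  rw [MonoidAlgebra.lift_single]

lemma Phi_eU (D : BN q G) (ψ : AddChar (ZMod q) k) (hq : q % 4 = 3) [CharP k 2]
    (hψ : ψ.IsPrimitive) (φ : G →* Module.End k (Mt θ)) (hφ : ∀ x, φ (D.n x) = oN ψ x)
    (c : ZMod q) (f : Mt θ) : Phi φ (eU D ψ c) f = PP c f := by
  unfold eU
  rw [map_sum, LinearMap.sum_apply]
  ext z
  rw [Submodule.coe_sum, Finset.sum_apply]
  have h1 : ∀ x : ZMod q, ((Phi φ (MonoidAlgebra.single (D.n x) (ψ (-(c * x)))) f : Mt θ) :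
      GaloisField q 2 → k) z = ψ (x * (nm z - c)) * f.1 z := by
    intro x
    rw [Phi_single, hφ]
    change ψ (-(c * x)) * (ψ (x * nm z) * f.1 z) = _
    rw [← mul_assoc, ← AddChar.map_add_eq_mul]
    congr 2; ring
  rw [Finset.sum_congr rfl fun x _ => h1 x, ← Finset.sum_mul, sum_psi ψ hq hψ, PP_apply]
  simp only [sub_eq_zero]
  split_ifs <;> simp

end WEIL

open WEIL in
/-- the cuspidal modules (Weil representation in characteristic 2) -/
theorem WEIL {q : ℕ} [Fact q.Prime] {G : Type} [Group G] (D : BN q G)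
    {k : Type u} [Field k] [IsAlgClosed k] [CharP k 2] (ψ : AddChar (ZMod q) k)
    (hq : q % 4 = 3) (hψ : ψ.IsPrimitive) (θ : T1 q →* kˣ) (hθ : θ ≠ 1) :
    ∃ (M : Type u) (_ : AddCommGroup M) (_ : Module (MonoidAlgebra k G) M),
      IsSimpleModule (MonoidAlgebra k G) M ∧
      (∃ m : M, m ≠ 0 ∧ eU D ψ 1 • m = m ∧
        ∀ a, hk D ψ a • m = algebraMap k (MonoidAlgebra k G) (Kt ψ θ a) • m) ∧
      ∃ m : M, m ≠ 0 ∧ eU D ψ (-1) • m = m := by
  obtain ⟨φ, hφn, hφd, hφw⟩ := LIFT D (M := Module.End k (Mt θ)) (fun x => oN ψ x)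
    (fun a => oD a) (oW ψ) (r0 ψ) (rn ψ) rd rd' (rdn ψ) (rww ψ hq hψ) (rwd ψ) (rwnw ψ hq)
  let inst : Module (MonoidAlgebra k G) (Mt θ) := Module.compHom (Mt θ) (Phi φ).toRingHom
  have hsm : ∀ (r : MonoidAlgebra k G) (f : Mt θ), r • f = Phi φ r f := fun r f => rfl
  have heU : ∀ c (f : Mt θ), eU D ψ c • f = PP c f := fun c f => by
    rw [hsm, Phi_eU D ψ hq hψ φ hφn]
  have hsn : ∀ (a : k) (f : Mt θ), algebraMap k (MonoidAlgebra k G) a • f = a • f := by
    intro a f
    rw [hsm, AlgHom.commutes, Module.algebraMap_end_apply]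
  have hw : ∀ f : Mt θ, (gw D : MonoidAlgebra k G) • f = oW ψ f := by
    intro f
    unfold gw
    rw [hsm, Phi_single, one_smul, hφw]
  have hd : ∀ a (f : Mt θ), (gd D a : MonoidAlgebra k G) • f = oD a f := by
    intro a f
    unfold gd
    rw [hsm, Phi_single, one_smul, hφd]
  refine ⟨Mt θ, inferInstance, inst, ?_, ⟨FF θ 1, FF_ne one_ne_zero, ?_, ?_⟩, ?_⟩
  · rw [isSimpleModule_iff]
    haveI : Nontrivial (Mt θ) := ⟨FF θ 1, 0, FF_ne one_ne_zero⟩
    haveI : Nontrivial (Submodule (MonoidAlgebra k G) (Mt θ)) := inferInstance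
    refine ⟨fun X => ?_⟩
    by_cases hX : X = ⊥
    · left; exact hX
    · right
      obtain ⟨f, hf, hf0⟩ := (Submodule.ne_bot_iff X).1 hX
      let Y : Submodule k (Mt θ) :=
        { carrier := X
          add_mem' := fun ha hb => X.add_mem ha hb
          zero_mem' := X.zero_mem
          smul_mem' := fun c x hx => by
            have := X.smul_mem (algebraMap k (MonoidAlgebra k G) c) hx
            rwa [hsn] at this }
      have hY : ∀ g : Mt θ, g ∈ Y := by
        refine core ψ hq hψ hθ Y ?_ ?_ ?_ f hf hf0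
        · intro c g hg
          have := X.smul_mem (eU D ψ c) hg
          rwa [heU] at this
        · intro a g hg
          have := X.smul_mem (gd D a) hg
          rwa [hd] at this
        · intro g hg
          have := X.smul_mem (gw D) hg
          rwa [hw] at this
      rw [eq_top_iff]
      intro g _
      exact hY g
  · rw [heU]
    conv_lhs => rw [← nm_one (q := q)]
    exact PP_FF one_ne_zero
  · intro a
    rw [hsn]
    have e1 : eU D ψ 1 • (FF θ 1 : Mt θ) = FF θ 1 := by
      rw [heU]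
      conv_lhs => rw [← nm_one (q := q)]
      exact PP_FF one_ne_zero
    unfold hk
    rw [mul_smul, mul_smul, mul_smul, e1, hd, hw, heU]
    conv_lhs => rw [← nm_one (q := q)]
    rw [PP_eq one_ne_zero, oW_FF ψ a one_ne_zero]
    congr 1
    unfold Kt
    rw [finsum_eq_sum_of_fintype]
    refine Finset.sum_congr rfl fun t _ => ?_
    rw [mul_one, one_mul, tr_bar, mul_comm, mul_comm (((a⁻¹ : (ZMod q)ˣ) : ZMod q))]
    rfl
  · obtain ⟨y, hy⟩ := nm_surj (q := q) (-1)
    have hy0 : y ≠ 0 := by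
      rintro rfl
      rw [nm_zero] at hy
      have : (1 : ZMod q) = 0 := by linear_combination hy
      exact one_ne_zero this
    refine ⟨FF θ y, FF_ne hy0, ?_⟩
    rw [heU, ← hy]
    exact PP_FF hy0

end CM
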